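import Pool.Agent.R859.KC.Defs

/-! KC-AFF: the affine subspace `AA`. -/

set_option autoImplicit false

open Set

namespace Pool.Agent.R859.KC

noncomputable section

namespace AFF

/-- the linear part -/
def L (m n : ℕ) : (Fin (n + 2) → ℝ) →ₗ[ℝ] E m where
  toFun u := G m 0 (-(u 0)) u
  map_add' u v := by
    ext i
    simp only [G, PiLp.toLp_apply, PiLp.add_apply, Pi.add_apply]
    split_ifs <;> ring
  map_smul' c u := by
    ext i
    simp only [G, PiLp.toLp_apply, PiLp.smul_apply, Pi.smul_apply, smul_eq_mul, RingHom.id_apply]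
    split_ifs <;> ring

theorem L_inj {m n : ℕ} (h : n + 4 ≤ m) : Function.Injective (L m n) := by
  intro u v huv
  funext j
  have h1 := congrArg (fun x : E m => x ⟨j + 2, by omega⟩) huv
  have h2 : (((⟨j + 2, by omega⟩ : Fin m) : ℕ) = 0) = False := by simp
  have h3 : (((⟨j + 2, by omega⟩ : Fin m) : ℕ) = 1) = False := by simp
  simpa [L, G] using h1

theorem split (m n : ℕ) (u : Fin (n + 2) → ℝ) :
    G m 1 (1 - u 0) u = L m n u + G m 1 1 (0 : Fin (n + 2) → ℝ) := by
  ext i
  simp only [L, LinearMap.coe_mk, AddHom.coe_mk, G, PiLp.toLp_apply, PiLp.add_apply,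
    Pi.zero_apply]
  split_ifs <;> ring

end AFF

open AFF in
/-- KC-AFF -/
theorem kc_aff {m n : ℕ} (h : n + 4 ≤ m) : ∃ A : AffineSubspace ℝ (E m),
    (A : Set (E m)) = AA m n ∧ Module.finrank ℝ A.direction = n + 2 := by
  refine ⟨AffineSubspace.mk' (G m 1 1 (0 : Fin (n + 2) → ℝ)) (LinearMap.range (L m n)), ?_, ?_⟩
  · ext x
    rw [SetLike.mem_coe, AffineSubspace.mem_mk', vsub_eq_sub, LinearMap.mem_range]
    constructor
    · rintro ⟨u, hu⟩
      refine ⟨u, ?_⟩
      rw [split, hu]
      abel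
    · rintro ⟨u, rfl⟩
      refine ⟨u, ?_⟩
      rw [split]
      abel
  · rw [AffineSubspace.direction_mk', LinearMap.finrank_range_of_inj (L_inj h)]
    simp

end

end Pool.Agent.R859.KC
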