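import Pool.Agent.R859.KC.Defs
import Pool.Agent.TH650.Emb.Bridge

/-! MP_e72e80_gt, piece KC-BRIDGE. -/

set_option autoImplicit false

open Set CategoryTheory AlgebraicTopology

namespace Pool.Agent.R859.KC

open Pool.Agent.H904R2 (Ch IsCyc IsBdy RAcyc psh Pc fund)

noncomputable section

open Pool.Agent.TH650.Emb.BrAux Pool.Agent.TH592.Nag in
/-- KC-BRIDGE -/
theorem kc_bridge {X Y : Type} [TopologicalSpace X] [TopologicalSpace Y] (f : C(X, Y)) (n : ℕ)
    (hf : Function.Injective (Hmap (n + 1) f).hom) (z : Ch X (n + 1)) (hz : IsCyc (n + 1) z)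
    (hb : IsBdy (n + 1) (psh f (n + 1) z)) : IsBdy (n + 1) z := by
  have hmap : Hmap (n + 1) f = HomologicalComplex.homologyMap (kmap f) (n + 1) := rfl
  have hm : Mono (HomologicalComplex.homologyMap (kmap f) (n + 1)) := by
    rw [← hmap]
    exact (ModuleCat.mono_iff_injective _).2 hf
  rw [HomologicalComplex.mono_homologyMap_iff_up_to_refinements (kmap f) (n + 2) (n + 1)
    ((ComplexShape.down ℕ).next (n + 1)) (by simp) rfl] at hm
  obtain ⟨b, hb⟩ := hb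
  have hz' : ((KK ℤ X).d (n + 1) ((ComplexShape.down ℕ).next (n + 1))).hom
      (toC ℤ X (n + 1) z) = 0 := (cyc_iff z).1 ((mem_cyc (by omega) z).2 hz)
  obtain ⟨A, π, hπ, x₁, hx₁⟩ := hm (elt (toC ℤ X (n + 1) z)) (by rw [elt_comp, hz', elt_zero])
    (elt (toC ℤ Y (n + 2) b)) (by
      rw [elt_comp, elt_comp, kmap_toC, d_toC, bd_eq, hb])
  have hsu : Function.Surjective π := (ModuleCat.epi_iff_surjective π).1 hπ
  obtain ⟨a, ha⟩ := hsu (1 : ℤ)
  refine ⟨(ofC ℤ X (n + 2)).hom (x₁.hom a), ?_⟩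
  apply toC_injective (R := ℤ)
  rw [← bd_eq, ← d_toC, toC_ofC]
  have h2 : (π ≫ elt (toC ℤ X (n + 1) z)).hom a =
      (x₁ ≫ (KK ℤ X).d (n + 2) (n + 1)).hom a := by rw [hx₁]
  have h3 : (π ≫ elt (toC ℤ X (n + 1) z)).hom a = toC ℤ X (n + 1) z := by
    show (elt (toC ℤ X (n + 1) z)).hom (π.hom a) = toC ℤ X (n + 1) z
    have ha' : π.hom a = (1 : ℤ) := ha
    rw [ha', elt_one]
  rw [h3] at h2
  exact h2.symm

end

end Pool.Agent.R859.KC
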