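import Pool.Agent.R859.KC.Defs

/-! KC-CONV (MP_e72e80_gt): `Om` is open and `(n+2)`-convex. -/

set_option autoImplicit false

open Set

namespace Pool.Agent.R859.KC

noncomputable section

/-- the statement of `kc_exit` -/
def ExitStm : Prop := ∀ {m k : ℕ} (v : Fin (k + 2) → E m), AffineIndependent ℝ v →
    ∀ (i₀ : Fin (k + 2)) (W : Submodule ℝ (E m)), m ≤ Module.finrank ℝ W + k → ∀ x : E m,
    x ∈ convexHull ℝ (Set.range v) → ∃ i, i ≠ i₀ ∧ ∃ w ∈ facet v i, w - x ∈ W

namespace Cv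

variable {m n : ℕ}

/-- coordinates defining the first subspace -/
def L1 (h : n + 4 ≤ m) : E m →ₗ[ℝ] (Fin (n + 2) → ℝ) where
  toFun x := xn h x
  map_add' x y := by funext j; rfl
  map_smul' c x := by funext j; rfl

/-- coordinates defining the second subspace -/
def L2 (h : n + 4 ≤ m) : E m →ₗ[ℝ] (Fin (n + 2) → ℝ) where
  toFun x := fun j => if j = 0 then xa h x else if j = 1 then xb h x else xn h x j
  map_add' x y := by
    funext j
    simp only [Pi.add_apply]
    split_ifs <;> rfl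
  map_smul' c x := by
    funext j
    simp only [Pi.smul_apply, RingHom.id_apply]
    split_ifs <;> rfl

/-- coordinates defining the span of the quarter space -/
def L3 (h : n + 4 ≤ m) : E m →ₗ[ℝ] (Fin (n + 2) → ℝ) where
  toFun x := fun j => if j = 0 then xb h x else xn h x j
  map_add' x y := by
    funext j
    simp only [Pi.add_apply]
    split_ifs <;> rfl
  map_smul' c x := by
    funext j
    simp only [Pi.smul_apply, RingHom.id_apply]
    split_ifs <;> rfl

lemma mem1 (h : n + 4 ≤ m) (x : E m) : x ∈ KP1 h ↔ L1 h x = 0 := Iff.rfl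

lemma zero_ne_one' : (0 : Fin (n + 2)) ≠ 1 := by
  intro h
  have := congrArg Fin.val h
  simp at this

lemma mem2 (h : n + 4 ≤ m) (x : E m) : x ∈ KP2 h ↔ L2 h x = 0 := by
  constructor
  · rintro ⟨h1, h2, h3⟩
    funext j
    show (if j = 0 then xa h x else if j = 1 then xb h x else xn h x j) = 0
    split_ifs with h4 h5
    · exact h1
    · exact h2
    · exact h3 j h4 h5
  · intro h0
    have hj : ∀ j : Fin (n + 2), (if j = 0 then xa h x else if j = 1 then xb h x else xn h x j) = 0 :=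
      fun j => congrFun h0 j
    refine ⟨?_, ?_, fun j h1 h2 => ?_⟩
    · have := hj 0
      rwa [if_pos rfl] at this
    · have := hj 1
      rwa [if_neg zero_ne_one'.symm, if_pos rfl] at this
    · have := hj j
      rwa [if_neg h1, if_neg h2] at this

lemma mem3 (h : n + 4 ≤ m) (x : E m) : L3 h x = 0 ↔ xb h x = 0 ∧ ∀ j : Fin (n + 2), j ≠ 0 → xn h x j = 0 := by
  constructor
  · intro h0
    have hj : ∀ j : Fin (n + 2), (if j = 0 then xb h x else xn h x j) = 0 := fun j => congrFun h0 j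
    refine ⟨?_, fun j h1 => ?_⟩
    · have := hj 0
      rwa [if_pos rfl] at this
    · have := hj j
      rwa [if_neg h1] at this
  · rintro ⟨h1, h2⟩
    funext j
    show (if j = 0 then xb h x else xn h x j) = 0
    split_ifs with h4
    · exact h1
    · exact h2 j h4

lemma fin_ker (L : E m →ₗ[ℝ] (Fin (n + 2) → ℝ)) : m ≤ Module.finrank ℝ (LinearMap.ker L) + (n + 2) := by
  have h1 := LinearMap.finrank_range_add_finrank_ker L
  have h2 : Module.finrank ℝ (LinearMap.range L) ≤ n + 2 := by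
    have := Submodule.finrank_le (LinearMap.range L)
    rwa [Module.finrank_fin_fun] at this
  have h3 : Module.finrank ℝ (E m) = m := by
    rw [finrank_euclideanSpace, Fintype.card_fin]
  omega

lemma cont_apply (i : Fin m) : Continuous fun x : E m => x i :=
  (EuclideanSpace.proj (𝕜 := ℝ) i).continuous

lemma cont_L (L : E m →ₗ[ℝ] (Fin (n + 2) → ℝ)) : Continuous L :=
  LinearMap.continuous_of_finiteDimensional L

lemma open_Om (h : n + 4 ≤ m) : IsOpen (Om h) := by
  rw [Om, isOpen_compl_iff]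
  refine (IsClosed.union ?_ ?_).union ?_
  · have : KP1 h = {x | L1 h x = 0} := by ext x; exact mem1 h x
    rw [this]
    exact isClosed_eq (cont_L _) continuous_const
  · have : KP2 h = {x | L2 h x = 0} := by ext x; exact mem2 h x
    rw [this]
    exact isClosed_eq (cont_L _) continuous_const
  · have : KV h = {x | L3 h x = 0} ∩ ({x | 0 ≤ xa h x} ∩ {x | 0 ≤ xn h x 0}) := by
      ext x
      constructor
      · rintro ⟨h1, h2, h3, h4⟩
        exact ⟨(mem3 h x).2 ⟨h2, h4⟩, h1, h3⟩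
      · rintro ⟨h1, h2, h3⟩
        have h4 := (mem3 h x).1 h1
        exact ⟨h2, h4.1, h3, h4.2⟩
    rw [this]
    exact (isClosed_eq (cont_L _) continuous_const).inter
      ((isClosed_le continuous_const (cont_apply _)).inter (isClosed_le continuous_const (cont_apply _)))

/-- the zero of an affine function on a segment -/
lemma zero_point (a b : ℝ) (ha : 0 ≤ a) (hb : b < 0) : ∃ t : ℝ, 0 ≤ t ∧ t ≤ 1 ∧ (1 - t) * a + t * b = 0 := by
  have h1 : 0 < a - b := by linarith
  refine ⟨a / (a - b), by positivity, ?_, ?_⟩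
  · rw [div_le_one h1]; linarith
  · field_simp
    ring

end Cv

open Cv in
theorem kc_conv_of (hE : ExitStm) {m n : ℕ} (h : n + 4 ≤ m) :
    IsOpen (Om h) ∧ KConvex (n + 2) (Om h) := by
  refine ⟨open_Om h, ?_⟩
  intro v hv i₀ hf
  set D := convexHull ℝ (Set.range v) with hD
  have hfD : ∀ i, facet v i ⊆ D := fun i => convexHull_mono (Set.image_subset_range _ _)
  have hDc : Convex ℝ D := convex_convexHull ℝ _
  have hex : ∀ (L : E m →ₗ[ℝ] (Fin (n + 2) → ℝ)) (x : E m), x ∈ D → L x = 0 →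
      ∃ w, w ∈ D ∧ w ∈ Om h ∧ L w = 0 := by
    intro L x hx hLx
    obtain ⟨i, hi, w, hw, hwx⟩ := hE v hv i₀ (LinearMap.ker L) (fin_ker L) x hx
    refine ⟨w, hfD i hw, hf i hi hw, ?_⟩
    rw [LinearMap.mem_ker, map_sub, hLx, sub_zero] at hwx
    exact hwx
  have h1 : ∀ x ∈ D, x ∉ KP1 h := by
    intro x hx hx1
    obtain ⟨w, -, hw, hw0⟩ := hex (L1 h) x hx ((mem1 h x).1 hx1)
    exact hw (Or.inl (Or.inl ((mem1 h w).2 hw0)))
  have h2 : ∀ x ∈ D, x ∉ KP2 h := by
    intro x hx hx1
    obtain ⟨w, -, hw, hw0⟩ := hex (L2 h) x hx ((mem2 h x).1 hx1)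
    exact hw (Or.inl (Or.inr ((mem2 h w).2 hw0)))
  have h3 : ∀ x ∈ D, x ∉ KV h := by
    rintro x hx ⟨ha, hb, hn0, hn⟩
    have hx0 : L3 h x = 0 := (mem3 h x).2 ⟨hb, hn⟩
    obtain ⟨w, hwD, hw, hw0⟩ := hex (L3 h) x hx hx0
    have hy : ∀ t : ℝ, 0 ≤ t → t ≤ 1 → (1 - t) • x + t • w ∈ D ∧ L3 h ((1 - t) • x + t • w) = 0 := by
      intro t ht0 ht1
      refine ⟨hDc hx hwD (by linarith) ht0 (by ring), ?_⟩
      rw [map_add, map_smul, map_smul, hx0, hw0, smul_zero, smul_zero, add_zero]
    rcases lt_or_ge (xa h w) 0 with hwa | hwa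
    · obtain ⟨t, ht0, ht1, ht⟩ := zero_point _ _ ha hwa
      obtain ⟨hyD, hy0⟩ := hy t ht0 ht1
      apply h2 _ hyD
      have h4 := (mem3 h _).1 hy0
      exact ⟨ht, h4.1, fun j hj _ => h4.2 j hj⟩
    · rcases lt_or_ge (xn h w 0) 0 with hwn | hwn
      · obtain ⟨t, ht0, ht1, ht⟩ := zero_point _ _ hn0 hwn
        obtain ⟨hyD, hy0⟩ := hy t ht0 ht1
        apply h1 _ hyD
        have h4 := (mem3 h _).1 hy0
        rw [mem1]
        funext j
        by_cases hj : j = 0
        · subst hj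
          exact ht
        · exact h4.2 j hj
      · have h4 := (mem3 h _).1 hw0
        exact hw (Or.inr ⟨hwa, h4.1, hwn, h4.2⟩)
  intro x hx hx'
  rcases hx' with (hx' | hx') | hx'
  · exact h1 x hx hx'
  · exact h2 x hx hx'
  · exact h3 x hx hx'

end

end Pool.Agent.R859.KC

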