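import Mathlib

/-! Definitions for MP_e72e80_gt (`k`-convex and Lefschetz-`k`-convex open sets). -/

set_option autoImplicit false

open Set CategoryTheory AlgebraicTopology

namespace Pool.Agent.R859.KC

noncomputable section

/-- Euclidean `m`-space. -/
abbrev E (m : ℕ) : Type := EuclideanSpace ℝ (Fin m)

/-- The facet opposite to the vertex `v i` of the simplex with vertices `v 0, …, v (k+1)`. -/
def facet {m k : ℕ} (v : Fin (k + 2) → E m) (i : Fin (k + 2)) : Set (E m) :=
  convexHull ℝ (v '' {i}ᶜ)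

/-- `k`-convexity: for every `(k+1)`-dimensional simplex, if all facets but one (that is, `k+1`
of the `k+2` facets) lie in `Ω`, then the whole simplex lies in `Ω`. -/
def KConvex {m : ℕ} (k : ℕ) (Ω : Set (E m)) : Prop :=
  ∀ v : Fin (k + 2) → E m, AffineIndependent ℝ v → ∀ i₀ : Fin (k + 2),
    (∀ i, i ≠ i₀ → facet v i ⊆ Ω) → convexHull ℝ (Set.range v) ⊆ Ω

/-- Mathlib's singular homology with integer coefficients. -/
abbrev H (n : ℕ) (X : Type) [TopologicalSpace X] : ModuleCat.{0} ℤ :=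
  ((singularHomologyFunctor (ModuleCat.{0} ℤ) n).obj (ModuleCat.of ℤ ℤ)).obj (TopCat.of X)

/-- The map induced in singular homology by a continuous map. -/
abbrev Hmap (n : ℕ) {X Y : Type} [TopologicalSpace X] [TopologicalSpace Y] (f : C(X, Y)) :
    H n X ⟶ H n Y :=
  ((singularHomologyFunctor (ModuleCat.{0} ℤ) n).obj (ModuleCat.of ℤ ℤ)).map (TopCat.ofHom f)

/-- `f` induces an injective homomorphism in singular homology of degree `n` with integer
coefficients. -/
def HInj (n : ℕ) {X Y : Type} [TopologicalSpace X] [TopologicalSpace Y] (f : C(X, Y)) : Prop :=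
  Function.Injective (Hmap n f).hom

/-- The inclusion `Ω ∩ A → Ω`. -/
def incl {m : ℕ} (Ω A : Set (E m)) : C(↥(Ω ∩ A), ↥Ω) :=
  ⟨fun x => ⟨x.1, x.2.1⟩, by fun_prop⟩

/-- The inclusion `Ω ∩ S → Ω` induces an injective homomorphism `H_n(Ω ∩ S) → H_n(Ω)`. -/
def InclInj {m : ℕ} (n : ℕ) (Ω S : Set (E m)) : Prop := HInj n (incl Ω S)

/-- The dimension of the direction of an affine subspace. -/
def dirDim {m : ℕ} (A : AffineSubspace ℝ (E m)) : ℕ := Module.finrank ℝ A.direction

/-- `S` is a `k`-dimensional affine subspace of `E^m`. -/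
def IsAffine {m : ℕ} (k : ℕ) (S : Set (E m)) : Prop :=
  ∃ A : AffineSubspace ℝ (E m), (A : Set (E m)) = S ∧ S.Nonempty ∧ dirDim A = k

/-- Lefschetz-`k`-convexity: for every `k`-dimensional affine subspace `S`, the homomorphism
`H_{k-1}(Ω ∩ S) → H_{k-1}(Ω)` induced by the inclusion is injective. -/
def LefschetzKConvex {m : ℕ} (k : ℕ) (Ω : Set (E m)) : Prop :=
  ∀ S : Set (E m), IsAffine k S → InclInj (k - 1) Ω S

/-! ### The counterexample -/

section counterexample

variable {m n : ℕ}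

/-- first coordinate -/
def xa (h : n + 4 ≤ m) (x : E m) : ℝ := x ⟨0, by omega⟩

/-- second coordinate -/
def xb (h : n + 4 ≤ m) (x : E m) : ℝ := x ⟨1, by omega⟩

/-- the next `n + 2` coordinates -/
def xn (h : n + 4 ≤ m) (x : E m) : Fin (n + 2) → ℝ := fun j => x ⟨j + 2, by omega⟩

/-- first linear subspace (codimension `n + 2`) -/
def KP1 (h : n + 4 ≤ m) : Set (E m) := {x | xn h x = 0}

/-- second linear subspace (codimension `n + 2`) -/
def KP2 (h : n + 4 ≤ m) : Set (E m) :=
  {x | xa h x = 0 ∧ xb h x = 0 ∧ ∀ j : Fin (n + 2), j ≠ 0 → j ≠ 1 → xn h x j = 0}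

/-- the quarter space, in a linear subspace of codimension `n + 2`, with boundary in the union of
the two previous subspaces -/
def KV (h : n + 4 ≤ m) : Set (E m) :=
  {x | 0 ≤ xa h x ∧ xb h x = 0 ∧ 0 ≤ xn h x 0 ∧ ∀ j : Fin (n + 2), j ≠ 0 → xn h x j = 0}

/-- the counterexample -/
def Om (h : n + 4 ≤ m) : Set (E m) := (KP1 h ∪ KP2 h ∪ KV h)ᶜ

/-- the point with coordinates `(a, b, u, 0, …, 0)` -/
def G (m : ℕ) {n : ℕ} (a b : ℝ) (u : Fin (n + 2) → ℝ) : E m :=
  WithLp.toLp 2 fun i : Fin m => if (i : ℕ) = 0 then a else if (i : ℕ) = 1 then b else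
    if hi : (i : ℕ) - 2 < n + 2 then u ⟨(i : ℕ) - 2, hi⟩ else 0

/-- the `(n+2)`-dimensional affine subspace `{(1, 1 - u₀, u, 0, …, 0)}`, as a set -/
def AA (m n : ℕ) : Set (E m) := {x | ∃ u : Fin (n + 2) → ℝ, x = G m 1 (1 - u 0) u}

end counterexample

end

end Pool.Agent.R859.KC
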