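import Pool.Agent.R859.KC.Defs

/-! KC-EXIT: leaving a simplex inside a subspace of small codimension. -/

set_option autoImplicit false

open Set CategoryTheory AlgebraicTopology

namespace Pool.Agent.R859.KC

namespace ExitAux

theorem mem_hull {V : Type*} [AddCommGroup V] [Module ℝ V] {N : ℕ} (v : Fin N → V) (x : V)
    (hx : x ∈ convexHull ℝ (Set.range v)) :
    ∃ l : Fin N → ℝ, (∀ i, 0 ≤ l i) ∧ ∑ i, l i = 1 ∧ x = ∑ i, l i • v i := by
  have h1 : convexHull ℝ (Set.range v) ⊆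
      (fun l : Fin N → ℝ => ∑ i, l i • v i) '' (stdSimplex ℝ (Fin N)) := by
    apply convexHull_min
    · rintro _ ⟨i, rfl⟩
      refine ⟨Pi.single i 1, single_mem_stdSimplex ℝ i, ?_⟩
      simp [Pi.single_apply]
    · apply (convex_stdSimplex ℝ (Fin N)).is_linear_image
      constructor
      · intro l l'
        simp only [Pi.add_apply, add_smul, Finset.sum_add_distrib]
      · intro c l
        simp only [Pi.smul_apply, smul_eq_mul, mul_smul, Finset.smul_sum]
  obtain ⟨l, hl, rfl⟩ := h1 hx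
  exact ⟨l, hl.1, hl.2, rfl⟩

theorem step {V : Type*} [AddCommGroup V] [Module ℝ V] {N : ℕ} (v : Fin N → V) (i₀ : Fin N)
    (W : Submodule ℝ V) (δ : Fin N → ℝ) (hδ : ∑ i, δ i = 0) (hne : ∃ i, δ i ≠ 0)
    (hW : ∑ i, δ i • v i ∈ W) (h0 : 0 ≤ δ i₀) (x : V) (hx : x ∈ convexHull ℝ (Set.range v)) :
    ∃ i, i ≠ i₀ ∧ ∃ w ∈ convexHull ℝ (v '' {i}ᶜ), w - x ∈ W := by
  obtain ⟨l, hl0, hl1, hlx⟩ := mem_hull v x hx
  have h1 : ∃ i ∈ (Finset.univ : Finset (Fin N)), 0 < -δ i := by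
    apply Finset.exists_pos_of_sum_zero_of_exists_nonzero
    · rw [Finset.sum_neg_distrib, hδ, neg_zero]
    · obtain ⟨i, hi⟩ := hne
      exact ⟨i, Finset.mem_univ i, neg_ne_zero.2 hi⟩
  obtain ⟨j, _, hj⟩ := h1
  obtain ⟨i₁, hi₁, hmin⟩ := Finset.exists_min_image
    (Finset.univ.filter (fun i => 0 < -δ i)) (fun i => l i / (-δ i)) ⟨j, by simp only [Finset.mem_filter, Finset.mem_univ, true_and]; exact hj⟩
  simp only [Finset.mem_filter, Finset.mem_univ, true_and] at hi₁ hmin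
  set t := l i₁ / (-δ i₁) with ht
  have ht0 : 0 ≤ t := div_nonneg (hl0 i₁) hi₁.le
  have hc : ∀ i, 0 ≤ l i + t * δ i := by
    intro i
    by_cases hi : 0 < -δ i
    · have h2 := hmin i hi
      rw [le_div_iff₀ hi] at h2
      linarith
    · have h2 : 0 ≤ δ i := by linarith [not_lt.1 hi]
      have h3 := mul_nonneg ht0 h2
      linarith [hl0 i]
  have hz : l i₁ + t * δ i₁ = 0 := by
    have h2 : t * (-δ i₁) = l i₁ := div_mul_cancel₀ _ (ne_of_gt hi₁)
    linarith
  refine ⟨i₁, ?_, ∑ i, (l i + t * δ i) • v i, ?_, ?_⟩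
  · rintro rfl
    linarith
  · have h2 : ∑ i ∈ Finset.univ.erase i₁, (l i + t * δ i) • v i = ∑ i, (l i + t * δ i) • v i :=
      Finset.sum_erase _ (by rw [hz, zero_smul])
    have h3 : ∑ i ∈ Finset.univ.erase i₁, (l i + t * δ i) = ∑ i, (l i + t * δ i) :=
      Finset.sum_erase _ hz
    rw [← h2]
    apply (convex_convexHull ℝ (v '' {i₁}ᶜ)).sum_mem
    · intro i _; exact hc i
    · rw [h3, Finset.sum_add_distrib, hl1, ← Finset.mul_sum, hδ, mul_zero, add_zero]
    · intro i hi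
      apply subset_convexHull
      exact ⟨i, Finset.ne_of_mem_erase hi, rfl⟩
  · have h2 : ∑ i, (l i + t * δ i) • v i - x = t • ∑ i, δ i • v i := by
      rw [hlx, Finset.smul_sum, ← Finset.sum_sub_distrib]
      apply Finset.sum_congr rfl
      intro i _
      rw [add_smul, mul_smul]
      abel
    rw [h2]
    exact W.smul_mem _ hW

end ExitAux

/-- KC-EXIT -/
theorem kc_exit {m k : ℕ} (v : Fin (k + 2) → E m) (hv : AffineIndependent ℝ v)
    (i₀ : Fin (k + 2)) (W : Submodule ℝ (E m)) (hW : m ≤ Module.finrank ℝ W + k) (x : E m)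
    (hx : x ∈ convexHull ℝ (Set.range v)) :
    ∃ i, i ≠ i₀ ∧ ∃ w ∈ facet v i, w - x ∈ W := by
  have h1 : Module.finrank ℝ (vectorSpan ℝ (Set.range v)) = k + 1 :=
    hv.finrank_vectorSpan (by simp)
  have h2 := Submodule.finrank_sup_add_finrank_inf_eq W (vectorSpan ℝ (Set.range v))
  have h3 : Module.finrank ℝ ↥(W ⊔ vectorSpan ℝ (Set.range v)) ≤ m := by
    have := Submodule.finrank_le (W ⊔ vectorSpan ℝ (Set.range v))
    simpa using this
  have h4 : 0 < Module.finrank ℝ ↥(W ⊓ vectorSpan ℝ (Set.range v)) := by omega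
  have h5 : (W ⊓ vectorSpan ℝ (Set.range v)) ≠ ⊥ := by
    intro h6
    rw [h6] at h4
    simp at h4
  obtain ⟨d, hd, hd0⟩ := Submodule.exists_mem_ne_zero_of_ne_bot h5
  obtain ⟨hdW, hdS⟩ := Submodule.mem_inf.1 hd
  rw [vectorSpan_range_eq_span_range_vsub_right ℝ v i₀,
    Submodule.mem_span_range_iff_exists_fun] at hdS
  obtain ⟨c, hc⟩ := hdS
  set δ : Fin (k + 2) → ℝ := fun i => c i - if i = i₀ then ∑ j, c j else 0 with hδdef
  have hδ : ∑ i, δ i = 0 := by
    simp [hδdef, Finset.sum_sub_distrib]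
  have hδv : ∑ i, δ i • v i = d := by
    rw [← hc]
    simp only [hδdef, sub_smul, vsub_eq_sub, smul_sub, Finset.sum_sub_distrib, ite_smul, zero_smul,
      Finset.sum_ite_eq', Finset.mem_univ, if_true, Finset.sum_smul]
  have hne : ∃ i, δ i ≠ 0 := by
    by_contra hcon
    push Not at hcon
    apply hd0
    rw [← hδv]
    apply Finset.sum_eq_zero
    intro i _
    rw [hcon i, zero_smul]
  rcases le_total 0 (δ i₀) with h0 | h0
  · exact ExitAux.step v i₀ W δ hδ hne (by rw [hδv]; exact hdW) h0 x hx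
  · refine ExitAux.step v i₀ W (fun i => -δ i) ?_ ?_ ?_ (by simpa using h0) x hx
    · rw [Finset.sum_neg_distrib, hδ, neg_zero]
    · obtain ⟨i, hi⟩ := hne
      exact ⟨i, neg_ne_zero.2 hi⟩
    · have : ∑ i, (-δ i) • v i = -d := by
        rw [← hδv, ← Finset.sum_neg_distrib]
        apply Finset.sum_congr rfl
        intro i _
        rw [neg_smul]
      rw [this]
      exact W.neg_mem hdW

end Pool.Agent.R859.KC
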