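import Pool.Agent.R859.KC.Defs
import Pool.Agent.H904R2.Sphere

/-! KC-HOM1: homotopies in `Om`. -/

set_option autoImplicit false

open Set

namespace Pool.Agent.R859.KC

open Pool.Agent.H904R2 (Ch IsCyc IsBdy RAcyc psh Pc fund)

noncomputable section

namespace HOM1

open Pool.Agent.Helper922.HB.Sc (slice)

variable {m n : ℕ}

theorem G_cont1 (m n : ℕ) : Continuous
    (fun p : ℝ × ℝ × (Fin (n + 2) → ℝ) => G m p.1 p.2.1 p.2.2) := by
  unfold G
  refine (PiLp.continuous_toLp 2 _).comp (continuous_pi fun i => ?_)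
  split_ifs <;> fun_prop

theorem xa_G1 (h : n + 4 ≤ m) (a b : ℝ) (u : Fin (n + 2) → ℝ) : xa h (G m a b u) = a := by
  simp [xa, G]

theorem xb_G1 (h : n + 4 ≤ m) (a b : ℝ) (u : Fin (n + 2) → ℝ) : xb h (G m a b u) = b := by
  simp [xb, G]

theorem xn_G1 (h : n + 4 ≤ m) (a b : ℝ) (u : Fin (n + 2) → ℝ) : xn h (G m a b u) = u := by
  funext j
  simp [xn, G]

theorem mem_Om (h : n + 4 ≤ m) (a b : ℝ) (u : Fin (n + 2) → ℝ) (hu : u ≠ 0)
    (h2 : ¬ (a = 0 ∧ b = 0))
    (h3 : ¬ (0 ≤ a ∧ b = 0 ∧ 0 ≤ u 0 ∧ ∀ j, j ≠ 0 → u j = 0)) : G m a b u ∈ Om h := by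
  intro hK
  rcases hK with (h1 | h1) | h1
  · apply hu
    have h4 : xn h (G m a b u) = 0 := h1
    rwa [xn_G1] at h4
  · obtain ⟨h4, h5, -⟩ := h1
    rw [xa_G1] at h4
    rw [xb_G1] at h5
    exact h2 ⟨h4, h5⟩
  · obtain ⟨h4, h5, h6, h7⟩ := h1
    rw [xa_G1] at h4
    rw [xb_G1] at h5
    rw [xn_G1] at h6
    refine h3 ⟨h4, h5, h6, fun j hj => ?_⟩
    have h8 := h7 j hj
    rwa [xn_G1] at h8

def Rel {X Y : Type} [TopologicalSpace X] [TopologicalSpace Y] (f g : C(X, Y)) : Prop :=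
  ∀ (r : ℕ) (z : Ch X r), IsCyc r z → IsBdy r (psh g r z - psh f r z)

theorem Rel.trans {X Y : Type} [TopologicalSpace X] [TopologicalSpace Y] {f g k : C(X, Y)}
    (h1 : Rel f g) (h2 : Rel g k) : Rel f k := by
  intro r z hz
  have h3 := Pool.Agent.H904R2.Sph.bdy_add (h2 r z hz) (h1 r z hz)
  rwa [sub_add_sub_cancel] at h3

theorem rel_of {X Y : Type} [TopologicalSpace X] [TopologicalSpace Y] {f g : C(X, Y)}
    (H : C(X × unitInterval, Y)) (h0 : ∀ x, H (x, 0) = f x) (h1 : ∀ x, H (x, 1) = g x) :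
    Rel f g := by
  intro r z hz
  have h2 := Pool.Agent.H904R2.Sph.homotopy_bdy H hz
  have e0 : slice H 0 = f := ContinuousMap.ext h0
  have e1 : slice H 1 = g := ContinuousMap.ext h1
  rwa [e0, e1] at h2

theorem step (h : n + 4 ≤ m) (A B C : Pc (n + 2) × unitInterval → ℝ) (hA : Continuous A)
    (hB : Continuous B) (hC : Continuous C)
    (hmem : ∀ p, G m (A p) (B p) (C p • p.1.1) ∈ Om h) (f g : C(Pc (n + 2), ↥(Om h)))
    (h0 : ∀ v, (f v : E m) = G m (A (v, 0)) (B (v, 0)) (C (v, 0) • v.1))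
    (h1 : ∀ v, (g v : E m) = G m (A (v, 1)) (B (v, 1)) (C (v, 1) • v.1)) : Rel f g := by
  refine rel_of ⟨fun p => ⟨_, hmem p⟩, ?_⟩ ?_ ?_
  · refine Continuous.subtype_mk ?_ _
    refine (G_cont1 m n).comp (hA.prodMk (hB.prodMk ?_))
    fun_prop
  · intro v
    apply Subtype.ext
    exact (h0 v).symm
  · intro v
    apply Subtype.ext
    exact (h1 v).symm

def mk (h : n + 4 ≤ m) (A B C : Pc (n + 2) → ℝ) (hA : Continuous A)
    (hB : Continuous B) (hC : Continuous C)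
    (hmem : ∀ v, G m (A v) (B v) (C v • v.1) ∈ Om h) : C(Pc (n + 2), ↥(Om h)) :=
  ⟨fun v => ⟨_, hmem v⟩, Continuous.subtype_mk
    ((G_cont1 m n).comp (hA.prodMk (hB.prodMk (by fun_prop)))) _⟩

theorem cont0 : Continuous fun v : Pc (n + 2) => 1 / (2 * ‖v.1‖) :=
  continuous_const.div (by fun_prop) (fun v => by
    have := norm_pos_iff.2 v.2
    positivity)

theorem cont1 : Continuous fun v : Pc (n + 2) => 2 / ‖v.1‖ :=
  continuous_const.div (by fun_prop) (fun v => by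
    have := norm_pos_iff.2 v.2
    positivity)

theorem pos0 (v : Pc (n + 2)) : 0 < 1 / (2 * ‖v.1‖) := by
  have := norm_pos_iff.2 v.2
  positivity

theorem pos1 (v : Pc (n + 2)) : 0 < 2 / ‖v.1‖ := by
  have := norm_pos_iff.2 v.2
  positivity

theorem ne0 (v : Pc (n + 2)) {c : ℝ} (hc : 0 < c) : c • v.1 ≠ 0 :=
  smul_ne_zero hc.ne' v.2

theorem bd0 (v : Pc (n + 2)) : (1 / (2 * ‖v.1‖)) * v.1 0 ≤ 1 / 2 := by
  have h1 := norm_pos_iff.2 v.2
  have h2 : v.1 0 ≤ ‖v.1‖ := (le_abs_self _).trans (norm_le_pi_norm v.1 0)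
  rw [one_div_mul_eq_div, div_le_iff₀ (by positivity)]
  linarith

theorem key (v : Pc (n + 2)) (h1 : 0 ≤ ((2 / ‖v.1‖) • v.1) 0)
    (h2 : ∀ j, j ≠ 0 → ((2 / ‖v.1‖) • v.1) j = 0) : (2 / ‖v.1‖) * v.1 0 = 2 := by
  have h3 := norm_pos_iff.2 v.2
  have h4 : ‖(2 / ‖v.1‖) • v.1‖ = 2 := by
    rw [norm_smul, norm_div, norm_norm, Real.norm_ofNat, div_mul_cancel₀ _ h3.ne']
  have h5 : ‖(2 / ‖v.1‖) • v.1‖ ≤ ((2 / ‖v.1‖) • v.1) 0 := by
    rw [pi_norm_le_iff_of_nonneg h1]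
    intro j
    by_cases hj : j = 0
    · subst hj
      rw [Real.norm_of_nonneg h1]
    · rw [h2 j hj, norm_zero]
      exact h1
  have h6 : ((2 / ‖v.1‖) • v.1) 0 ≤ ‖(2 / ‖v.1‖) • v.1‖ :=
    (le_abs_self _).trans (norm_le_pi_norm ((2 / ‖v.1‖) • v.1) 0)
  have h7 : ((2 / ‖v.1‖) • v.1) 0 = (2 / ‖v.1‖) * v.1 0 := rfl
  linarith

end HOM1

open HOM1 in
/-- KC-HOM1: the homotopies in `Om` -/
theorem kc_hom1 {m n : ℕ} (h : n + 4 ≤ m) (fa fc : C(Pc (n + 2), ↥(Om h)))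
    (ha : ∀ v, (fa v : E m) = G m 1 (1 - (1 / (2 * ‖v.1‖)) * v.1 0) ((1 / (2 * ‖v.1‖)) • v.1))
    (hc : ∀ v, (fc v : E m) = G m 1 (1 - (2 / ‖v.1‖) * v.1 0) ((2 / ‖v.1‖) • v.1))
    (r : ℕ) (z : Ch (Pc (n + 2)) r) (hz : IsCyc r z) : IsBdy r (psh fc r z - psh fa r z) := by
  have c0 := cont0 (n := n)
  have c1 := cont1 (n := n)
  have c0' : Continuous fun p : Pc (n + 2) × unitInterval => 1 / (2 * ‖p.1.1‖) :=
    c0.comp continuous_fst
  have c1' : Continuous fun p : Pc (n + 2) × unitInterval => 2 / ‖p.1.1‖ :=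
    c1.comp continuous_fst
  have cv : Continuous fun p : Pc (n + 2) × unitInterval => p.1.1 0 :=
    (continuous_apply 0).comp (continuous_subtype_val.comp continuous_fst)
  have cs : Continuous fun p : Pc (n + 2) × unitInterval => (p.2 : ℝ) := by fun_prop
  let f1 : C(Pc (n + 2), ↥(Om h)) := HOM1.mk h (fun _ => 1) (fun _ => 1)
    (fun v => 1 / (2 * ‖v.1‖)) continuous_const continuous_const c0
    (fun v => mem_Om h _ _ _ (ne0 v (pos0 v)) (by norm_num) (by norm_num))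
  let f2 : C(Pc (n + 2), ↥(Om h)) := HOM1.mk h (fun _ => 1) (fun _ => 1)
    (fun v => 2 / ‖v.1‖) continuous_const continuous_const c1
    (fun v => mem_Om h _ _ _ (ne0 v (pos1 v)) (by norm_num) (by norm_num))
  let f3 : C(Pc (n + 2), ↥(Om h)) := HOM1.mk h (fun _ => -1) (fun _ => 1)
    (fun v => 2 / ‖v.1‖) continuous_const continuous_const c1
    (fun v => mem_Om h _ _ _ (ne0 v (pos1 v)) (by norm_num) (by norm_num))
  let f4 : C(Pc (n + 2), ↥(Om h)) := HOM1.mk h (fun _ => -1) (fun _ => -1)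
    (fun v => 2 / ‖v.1‖) continuous_const continuous_const c1
    (fun v => mem_Om h _ _ _ (ne0 v (pos1 v)) (by norm_num) (by norm_num))
  let f5 : C(Pc (n + 2), ↥(Om h)) := HOM1.mk h (fun _ => 1) (fun _ => -1)
    (fun v => 2 / ‖v.1‖) continuous_const continuous_const c1
    (fun v => mem_Om h _ _ _ (ne0 v (pos1 v)) (by norm_num) (by norm_num))
  have r1 : Rel fa f1 := by
    refine step h (fun _ => 1) (fun p => 1 - (1 - (p.2 : ℝ)) * ((1 / (2 * ‖p.1.1‖)) * p.1.1 0))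
      (fun p => 1 / (2 * ‖p.1.1‖)) continuous_const
      (continuous_const.sub ((continuous_const.sub cs).mul (c0'.mul cv))) c0' ?_ fa f1 ?_ ?_
    · intro p
      have h1 := bd0 p.1
      have h2 := p.2.2.1
      have h3 := p.2.2.2
      have h4 : 0 < 1 - (1 - (p.2 : ℝ)) * ((1 / (2 * ‖p.1.1‖)) * p.1.1 0) := by
        rcases le_or_gt 0 ((1 / (2 * ‖p.1.1‖)) * p.1.1 0) with h5 | h5
        · nlinarith
        · nlinarith
      exact mem_Om h _ _ _ (ne0 p.1 (pos0 p.1)) (fun hh => h4.ne' hh.2) (fun hh => h4.ne' hh.2.1)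
    · intro v
      rw [ha v]
      simp
    · intro v
      simp [f1, HOM1.mk]
  have r2 : Rel f1 f2 := by
    refine step h (fun _ => 1) (fun _ => 1)
      (fun p => (1 - (p.2 : ℝ)) * (1 / (2 * ‖p.1.1‖)) + (p.2 : ℝ) * (2 / ‖p.1.1‖))
      continuous_const continuous_const
      (((continuous_const.sub cs).mul c0').add (cs.mul c1')) ?_ f1 f2 ?_ ?_
    · intro p
      have h1 := pos0 p.1
      have h1' := pos1 p.1
      have h2 := p.2.2.1
      have h3 := p.2.2.2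
      have h4 : 0 < (1 - (p.2 : ℝ)) * (1 / (2 * ‖p.1.1‖)) + (p.2 : ℝ) * (2 / ‖p.1.1‖) := by
        rcases h2.eq_or_lt with h5 | h5
        · rw [← h5]
          simpa using h1
        · have h6 := mul_pos h5 h1'
          have h7 := mul_nonneg (sub_nonneg.2 h3) h1.le
          linarith
      exact mem_Om h _ _ _ (ne0 p.1 h4) (by norm_num) (by norm_num)
    · intro v
      simp [f1, HOM1.mk]
    · intro v
      simp [f2, HOM1.mk]
  have r3 : Rel f2 f3 := by
    refine step h (fun p => 1 - 2 * (p.2 : ℝ)) (fun _ => 1) (fun p => 2 / ‖p.1.1‖)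
      (continuous_const.sub (continuous_const.mul cs)) continuous_const c1' ?_ f2 f3 ?_ ?_
    · intro p
      exact mem_Om h _ _ _ (ne0 p.1 (pos1 p.1)) (fun hh => one_ne_zero hh.2)
        (fun hh => one_ne_zero hh.2.1)
    · intro v
      simp [f2, HOM1.mk]
    · intro v
      simp only [f3, HOM1.mk, ContinuousMap.coe_mk, Set.Icc.coe_one]
      norm_num
  have r4 : Rel f3 f4 := by
    refine step h (fun _ => -1) (fun p => 1 - 2 * (p.2 : ℝ)) (fun p => 2 / ‖p.1.1‖)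
      continuous_const (continuous_const.sub (continuous_const.mul cs)) c1' ?_ f3 f4 ?_ ?_
    · intro p
      exact mem_Om h _ _ _ (ne0 p.1 (pos1 p.1)) (fun hh => by norm_num at hh)
        (fun hh => by norm_num at hh)
    · intro v
      simp [f3, HOM1.mk]
    · intro v
      simp only [f4, HOM1.mk, ContinuousMap.coe_mk, Set.Icc.coe_one]
      norm_num
  have r5 : Rel f4 f5 := by
    refine step h (fun p => -1 + 2 * (p.2 : ℝ)) (fun _ => -1) (fun p => 2 / ‖p.1.1‖)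
      (continuous_const.add (continuous_const.mul cs)) continuous_const c1' ?_ f4 f5 ?_ ?_
    · intro p
      exact mem_Om h _ _ _ (ne0 p.1 (pos1 p.1)) (fun hh => by norm_num at hh)
        (fun hh => by norm_num at hh)
    · intro v
      simp [f4, HOM1.mk]
    · intro v
      simp only [f5, HOM1.mk, ContinuousMap.coe_mk, Set.Icc.coe_one]
      norm_num
  have r6 : Rel f5 fc := by
    refine step h (fun _ => 1)
      (fun p => (1 - (p.2 : ℝ)) * (-1) + (p.2 : ℝ) * (1 - (2 / ‖p.1.1‖) * p.1.1 0))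
      (fun p => 2 / ‖p.1.1‖) continuous_const
      (((continuous_const.sub cs).mul continuous_const).add
        (cs.mul (continuous_const.sub (c1'.mul cv)))) c1' ?_ f5 fc ?_ ?_
    · intro p
      refine mem_Om h _ _ _ (ne0 p.1 (pos1 p.1)) (fun hh => one_ne_zero hh.1) ?_
      rintro ⟨-, h1, h2, h3⟩
      have h4 := key p.1 h2 h3
      rw [h4] at h1
      linarith
    · intro v
      simp [f5, HOM1.mk]
    · intro v
      rw [hc v]
      simp
  exact (r1.trans (r2.trans (r3.trans (r4.trans (r5.trans r6))))) r z hz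

end

end Pool.Agent.R859.KC
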