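import Pool.Agent.R859.KC.Defs
import Pool.Agent.H904R2.Sphere

/-! KC-HOM2: the cycle is not a boundary in `Om ∩ AA`. -/

set_option autoImplicit false

open Set CategoryTheory AlgebraicTopology

namespace Pool.Agent.R859.KC

open Pool.Agent.H904R2 (Ch IsCyc IsBdy RAcyc psh Pc fund)

noncomputable section

namespace H2aux

open Pool.Agent.Helper922.HB.Sc (slice)
open Pool.Agent.H904R2.Sph (bdy_psh psh_comp homotopy_bdy const_bdy bdy_add evm_sbd psh_id)

lemma xa_G' {m n : ℕ} (h : n + 4 ≤ m) (a b : ℝ) (u : Fin (n + 2) → ℝ) :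
    xa h (G m a b u) = a := by
  simp [xa, G]

lemma xb_G' {m n : ℕ} (h : n + 4 ≤ m) (a b : ℝ) (u : Fin (n + 2) → ℝ) :
    xb h (G m a b u) = b := by
  simp [xb, G]

lemma xn_G' {m n : ℕ} (h : n + 4 ≤ m) (a b : ℝ) (u : Fin (n + 2) → ℝ) :
    xn h (G m a b u) = u := by
  funext j
  change (if (j : ℕ) + 2 = 0 then a else if (j : ℕ) + 2 = 1 then b else
    if hi : (j : ℕ) + 2 - 2 < n + 2 then u ⟨(j : ℕ) + 2 - 2, hi⟩ else 0) = u j
  rw [if_neg (by omega), if_neg (by omega), dif_pos (by omega)]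
  rfl

/-- the vector `e₀` -/
def e0 (n : ℕ) : Fin (n + 2) → ℝ := Pi.single 0 1

lemma norm_e0 (n : ℕ) : ‖e0 n‖ = 1 := by
  unfold e0
  rw [Pi.norm_single, norm_one]

lemma r_ne {m n : ℕ} (h : n + 4 ≤ m) (x : ↥(Om h ∩ AA m n)) : xn h x.1 - e0 n ≠ 0 := by
  obtain ⟨x, hx1, u, rfl⟩ := x
  intro h0
  rw [xn_G', sub_eq_zero] at h0
  apply hx1
  right
  refine ⟨?_, ?_, ?_, ?_⟩
  · rw [xa_G']; norm_num
  · rw [xb_G', h0]; simp [e0]
  · rw [xn_G', h0]; simp [e0]
  · intro j hj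
    rw [xn_G', h0]; simp [e0, hj]

/-- the retraction -/
def r {m n : ℕ} (h : n + 4 ≤ m) : C(↥(Om h ∩ AA m n), Pc (n + 2)) :=
  ⟨fun x => ⟨xn h x.1 - e0 n, r_ne h x⟩, by
    apply Continuous.subtype_mk
    refine Continuous.sub ?_ continuous_const
    refine continuous_pi fun j => ?_
    exact (EuclideanSpace.proj (⟨(j : ℕ) + 2, by omega⟩ : Fin m) : E m →L[ℝ] ℝ).continuous.comp
      continuous_subtype_val⟩

/-- first homotopy -/
def HA (n : ℕ) : C(Pc (n + 2) × unitInterval, Pc (n + 2)) :=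
  ⟨fun p => ⟨(p.2 : ℝ) • ((1 / (2 * ‖p.1.1‖)) • p.1.1) - e0 n, by
    intro h0
    rw [sub_eq_zero] at h0
    have h1 := congrArg norm h0
    have hv : 0 < ‖p.1.1‖ := norm_pos_iff.2 p.1.2
    rw [norm_smul, norm_smul, norm_e0, Real.norm_of_nonneg p.2.2.1,
      Real.norm_of_nonneg (by positivity)] at h1
    have h2 : 1 / (2 * ‖p.1.1‖) * ‖p.1.1‖ = 1 / 2 := by field_simp
    rw [h2] at h1
    have := p.2.2.2
    linarith⟩, by
    apply Continuous.subtype_mk
    refine Continuous.sub ?_ continuous_const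
    have c1 : Continuous fun p : Pc (n + 2) × unitInterval => p.1.1 :=
      continuous_subtype_val.comp continuous_fst
    have c2 : Continuous fun p : Pc (n + 2) × unitInterval => (p.2 : ℝ) :=
      continuous_subtype_val.comp continuous_snd
    have c3 : Continuous fun p : Pc (n + 2) × unitInterval => 1 / (2 * ‖p.1.1‖) := by
      refine continuous_const.div (continuous_const.mul c1.norm) ?_
      intro p
      have hv : 0 < ‖p.1.1‖ := norm_pos_iff.2 p.1.2
      positivity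
    exact c2.smul (c3.smul c1)⟩

/-- second homotopy -/
def HC (n : ℕ) : C(Pc (n + 2) × unitInterval, Pc (n + 2)) :=
  ⟨fun p => ⟨((1 - (p.2 : ℝ)) * (2 / ‖p.1.1‖) + (p.2 : ℝ)) • p.1.1 - (1 - (p.2 : ℝ)) • e0 n, by
    intro h0
    rw [sub_eq_zero] at h0
    have h1 := congrArg norm h0
    have hv : 0 < ‖p.1.1‖ := norm_pos_iff.2 p.1.2
    have hs0 := p.2.2.1
    have hs1 : 0 ≤ 1 - (p.2 : ℝ) := by have := p.2.2.2; linarith
    rw [norm_smul, norm_smul, norm_e0, Real.norm_of_nonneg hs1,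
      Real.norm_of_nonneg (by positivity), add_mul, mul_assoc] at h1
    have h2 : 2 / ‖p.1.1‖ * ‖p.1.1‖ = 2 := by field_simp
    rw [h2] at h1
    have h3 : 0 ≤ (p.2 : ℝ) * ‖p.1.1‖ := by positivity
    have h4 : 1 - (p.2 : ℝ) = 0 := by linarith
    have h5 : (p.2 : ℝ) = 1 := by linarith
    rw [h5] at h1
    simp at h1
    exact p.1.2 h1⟩, by
    apply Continuous.subtype_mk
    have c1 : Continuous fun p : Pc (n + 2) × unitInterval => p.1.1 :=
      continuous_subtype_val.comp continuous_fst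
    have c2 : Continuous fun p : Pc (n + 2) × unitInterval => (p.2 : ℝ) :=
      continuous_subtype_val.comp continuous_snd
    have c3 : Continuous fun p : Pc (n + 2) × unitInterval => 2 / ‖p.1.1‖ := by
      refine continuous_const.div c1.norm ?_
      intro p
      exact (norm_pos_iff.2 p.1.2).ne'
    have c4 : Continuous fun p : Pc (n + 2) × unitInterval => 1 - (p.2 : ℝ) :=
      continuous_const.sub c2
    exact (((c4.mul c3).add c2).smul c1).sub (c4.smul continuous_const)⟩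

lemma neg_e0_ne (n : ℕ) : -e0 n ≠ 0 := by
  intro h
  have := congrArg norm h
  rw [norm_neg, norm_e0, norm_zero] at this
  exact one_ne_zero this

end H2aux

open H2aux in
open Pool.Agent.Helper922.HB.Sc (slice) in
open Pool.Agent.H904R2.Sph (bdy_psh psh_comp homotopy_bdy const_bdy bdy_add evm_sbd psh_id) in
/-- KC-HOM2: the cycle is not a boundary in `Om ∩ AA` -/
theorem kc_hom2 {m n : ℕ} (h : n + 4 ≤ m) (fa fc : C(Pc (n + 2), ↥(Om h ∩ AA m n)))
    (ha : ∀ v, (fa v : E m) = G m 1 (1 - (1 / (2 * ‖v.1‖)) * v.1 0) ((1 / (2 * ‖v.1‖)) • v.1))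
    (hc : ∀ v, (fc v : E m) = G m 1 (1 - (2 / ‖v.1‖) * v.1 0) ((2 / ‖v.1‖) • v.1)) :
    ¬ IsBdy (n + 1) (psh fc (n + 1) (fund (n + 1)) - psh fa (n + 1) (fund (n + 1))) := by
  intro hb
  have h1 := bdy_psh (r h) hb
  rw [map_sub, psh_comp, psh_comp] at h1
  have hcyc := Pool.Agent.H904R2.fund_cyc (n + 1)
  -- the first map
  have e1 : slice (HA n) 1 = (r h).comp fa := by
    apply ContinuousMap.ext
    intro v
    apply Subtype.ext
    change ((1 : unitInterval) : ℝ) • ((1 / (2 * ‖v.1‖)) • v.1) - e0 n = xn h (fa v : E m) - e0 n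
    rw [ha v, xn_G', Set.Icc.coe_one, one_smul]
  have e0' : slice (HA n) 0 = ContinuousMap.const _ ⟨-e0 n, neg_e0_ne n⟩ := by
    apply ContinuousMap.ext
    intro v
    apply Subtype.ext
    change ((0 : unitInterval) : ℝ) • ((1 / (2 * ‖v.1‖)) • v.1) - e0 n = -e0 n
    rw [Set.Icc.coe_zero, zero_smul, zero_sub]
  have h2 := homotopy_bdy (HA n) hcyc
  rw [e1, e0'] at h2
  have h3 := const_bdy (⟨-e0 n, neg_e0_ne n⟩ : Pc (n + 2)) hcyc
  have h4 := bdy_add h2 h3
  rw [sub_add_cancel] at h4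
  -- the second map
  have e2 : slice (HC n) 0 = (r h).comp fc := by
    apply ContinuousMap.ext
    intro v
    apply Subtype.ext
    change ((1 - ((0 : unitInterval) : ℝ)) * (2 / ‖v.1‖) + ((0 : unitInterval) : ℝ)) • v.1 -
      (1 - ((0 : unitInterval) : ℝ)) • e0 n = xn h (fc v : E m) - e0 n
    rw [hc v, xn_G', Set.Icc.coe_zero, sub_zero, one_mul, add_zero, one_smul]
  have e3 : slice (HC n) 1 = ContinuousMap.id _ := by
    apply ContinuousMap.ext
    intro v
    apply Subtype.ext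
    change ((1 - ((1 : unitInterval) : ℝ)) * (2 / ‖v.1‖) + ((1 : unitInterval) : ℝ)) • v.1 -
      (1 - ((1 : unitInterval) : ℝ)) • e0 n = v.1
    rw [Set.Icc.coe_one, sub_self, zero_mul, zero_add, one_smul, zero_smul, sub_zero]
  have h5 := homotopy_bdy (HC n) hcyc
  rw [e2, e3, psh_id] at h5
  have h6 := bdy_add (bdy_add h5 h1) h4
  rw [sub_add_sub_cancel, sub_add_cancel] at h6
  obtain ⟨y, hy⟩ := h6
  obtain ⟨ω, hω, hω1⟩ := Pool.Agent.H904R2.pc_coc (n + 1)
  have h7 := evm_sbd hω y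
  rw [hy, hω1] at h7
  exact one_ne_zero h7

end

end Pool.Agent.R859.KC
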