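import Pool.Agent.R859.KC.MemG
import Pool.Agent.R859.KC.AFF
import Pool.Agent.R859.KC.EXIT
import Pool.Agent.R859.KC.CONV
import Pool.Agent.R859.KC.BRIDGE
import Pool.Agent.R859.KC.HOM1
import Pool.Agent.R859.KC.HOM2

/-! Final assembly for MP_e72e80_gt. -/

set_option autoImplicit false

open Set CategoryTheory AlgebraicTopology

namespace Pool.Agent.R859.KC

open Pool.Agent.H904R2 (Ch IsCyc IsBdy RAcyc psh Pc fund fund_cyc)
open Pool.Agent.H904R2.Sph (psh_comp cyc_sub cyc_psh)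

noncomputable section

/-- the small sphere -/
def fa {m n : ℕ} (h : n + 4 ≤ m) : C(Pc (n + 2), ↥(Om h ∩ AA m n)) :=
  ⟨fun v => ⟨G m 1 (1 - (1 / (2 * ‖v.1‖)) * v.1 0) ((1 / (2 * ‖v.1‖)) • v.1),
    mem_a h v.1 v.2, ⟨(1 / (2 * ‖v.1‖)) • v.1, rfl⟩⟩, by
    apply Continuous.subtype_mk
    have hn : Continuous fun v : Pc (n + 2) => 1 / (2 * ‖v.1‖) :=
      continuous_const.div (continuous_const.mul continuous_subtype_val.norm)
        (fun v => by
          have : 0 < ‖v.1‖ := norm_pos_iff.2 v.2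
          positivity)
    have h0 : Continuous fun v : Pc (n + 2) => v.1 0 :=
      (continuous_apply 0).comp continuous_subtype_val
    exact (G_cont m n).comp (continuous_const.prodMk
      ((continuous_const.sub (hn.mul h0)).prodMk (hn.smul continuous_subtype_val)))⟩

/-- the large sphere -/
def fc {m n : ℕ} (h : n + 4 ≤ m) : C(Pc (n + 2), ↥(Om h ∩ AA m n)) :=
  ⟨fun v => ⟨G m 1 (1 - (2 / ‖v.1‖) * v.1 0) ((2 / ‖v.1‖) • v.1),
    mem_c h v.1 v.2, ⟨(2 / ‖v.1‖) • v.1, rfl⟩⟩, by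
    apply Continuous.subtype_mk
    have hn : Continuous fun v : Pc (n + 2) => 2 / ‖v.1‖ :=
      continuous_const.div continuous_subtype_val.norm (fun v => norm_ne_zero_iff.2 v.2)
    have h0 : Continuous fun v : Pc (n + 2) => v.1 0 :=
      (continuous_apply 0).comp continuous_subtype_val
    exact (G_cont m n).comp (continuous_const.prodMk
      ((continuous_const.sub (hn.mul h0)).prodMk (hn.smul continuous_subtype_val)))⟩

theorem not_inj {m n : ℕ} (h : n + 4 ≤ m) (hinj : InclInj (n + 1) (Om h) (AA m n)) : False := by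
  set z : Ch ↥(Om h ∩ AA m n) (n + 1) :=
    psh (fc h) (n + 1) (fund (n + 1)) - psh (fa h) (n + 1) (fund (n + 1)) with hz
  have hzc : IsCyc (n + 1) z :=
    cyc_sub (cyc_psh _ (fund_cyc _)) (cyc_psh _ (fund_cyc _))
  have hb : IsBdy (n + 1) (psh (incl (Om h) (AA m n)) (n + 1) z) := by
    rw [hz, map_sub, psh_comp, psh_comp]
    exact kc_hom1 h _ _ (fun v => rfl) (fun v => rfl) (n + 1) _ (fund_cyc _)
  exact kc_hom2 h (fa h) (fc h) (fun v => rfl) (fun v => rfl)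
    (kc_bridge (incl (Om h) (AA m n)) n hinj z hzc hb)

theorem kc_final {m k : ℕ} (hk : 2 ≤ k) (hm : k + 2 ≤ m) :
    ∃ Ω : Set (E m), IsOpen Ω ∧ KConvex k Ω ∧ ¬ LefschetzKConvex k Ω := by
  obtain ⟨n, rfl⟩ : ∃ n, k = n + 2 := ⟨k - 2, by omega⟩
  have h : n + 4 ≤ m := by omega
  obtain ⟨ho, hc⟩ := kc_conv_of kc_exit h
  refine ⟨Om h, ho, hc, fun hL => ?_⟩
  obtain ⟨A, hA, hfin⟩ := kc_aff h
  exact not_inj h (hL (AA m n) ⟨A, hA, ⟨_, 0, rfl⟩, hfin⟩)

end

end Pool.Agent.R859.KC
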