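import Pool.Agent.R859.KC.Defs

/-! Elementary lemmas about the points `G m a b u`. -/

set_option autoImplicit false

namespace Pool.Agent.R859.KC

theorem G_cont (m n : ℕ) : Continuous
    (fun p : ℝ × ℝ × (Fin (n + 2) → ℝ) => G m p.1 p.2.1 p.2.2) := by
  unfold G
  apply (PiLp.continuous_toLp 2 (fun _ : Fin m => ℝ)).comp
  refine continuous_pi fun i => ?_
  by_cases h0 : (i : ℕ) = 0
  · simp only [h0, if_true]
    exact continuous_fst
  · by_cases h1 : (i : ℕ) = 1
    · simp only [h1, if_true]
      simp only [one_ne_zero, if_false]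
      exact continuous_fst.comp continuous_snd
    · simp only [h0, h1, if_false]
      by_cases h2 : (i : ℕ) - 2 < n + 2
      · simp only [h2, dif_pos]
        exact (continuous_apply _).comp (continuous_snd.comp continuous_snd)
      · simp only [h2, dif_neg, not_false_eq_true]
        exact continuous_const

theorem xa_G {m n : ℕ} (h : n + 4 ≤ m) (a b : ℝ) (u : Fin (n + 2) → ℝ) : xa h (G m a b u) = a := by
  simp [xa, G]

theorem xb_G {m n : ℕ} (h : n + 4 ≤ m) (a b : ℝ) (u : Fin (n + 2) → ℝ) : xb h (G m a b u) = b := by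
  simp [xb, G]

theorem xn_G {m n : ℕ} (h : n + 4 ≤ m) (a b : ℝ) (u : Fin (n + 2) → ℝ) : xn h (G m a b u) = u := by
  funext j
  have hj := j.2
  simp only [xn, G]
  rw [if_neg (by simp), if_neg (by simp), dif_pos (by simp)]
  rfl

end Pool.Agent.R859.KC
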