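import Pool.Agent.R859.KC.GL

/-! Membership of the points `G m a b u` in the open set `Om`. -/

set_option autoImplicit false

namespace Pool.Agent.R859.KC

theorem mem_Om_G {m n : ℕ} (h : n + 4 ≤ m) (a b : ℝ) (u : Fin (n + 2) → ℝ) :
    G m a b u ∈ Om h ↔ u ≠ 0 ∧ ¬ (a = 0 ∧ b = 0 ∧ ∀ j : Fin (n + 2), j ≠ 0 → j ≠ 1 → u j = 0) ∧
      ¬ (0 ≤ a ∧ b = 0 ∧ 0 ≤ u 0 ∧ ∀ j : Fin (n + 2), j ≠ 0 → u j = 0) := by
  unfold Om KP1 KP2 KV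
  simp only [Set.mem_compl_iff, Set.mem_union, Set.mem_setOf_eq, xa_G, xb_G, xn_G, not_or]
  tauto

/-- the sup norm of a vector with at most one nonzero coordinate -/
theorem norm_eq_abs {n : ℕ} (w : Fin (n + 2) → ℝ) (hw : ∀ j, j ≠ 0 → w j = 0) :
    ‖w‖ = |w 0| := by
  apply le_antisymm
  · rw [pi_norm_le_iff_of_nonneg (abs_nonneg _)]
    intro i
    by_cases hi : i = 0
    · rw [hi]
      exact le_of_eq (Real.norm_eq_abs _)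
    · rw [hw i hi]
      simp
  · rw [← Real.norm_eq_abs]
    exact norm_le_pi_norm w 0

theorem norm_half {n : ℕ} (v : Fin (n + 2) → ℝ) (hv : v ≠ 0) :
    ‖(1 / (2 * ‖v‖)) • v‖ = 1 / 2 := by
  have h : 0 < ‖v‖ := norm_pos_iff.2 hv
  rw [norm_smul, Real.norm_of_nonneg (by positivity)]
  field_simp

theorem norm_two {n : ℕ} (v : Fin (n + 2) → ℝ) (hv : v ≠ 0) :
    ‖(2 / ‖v‖) • v‖ = 2 := by
  have h : 0 < ‖v‖ := norm_pos_iff.2 hv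
  rw [norm_smul, Real.norm_of_nonneg (by positivity)]
  field_simp

theorem mem_a {m n : ℕ} (h : n + 4 ≤ m) (v : Fin (n + 2) → ℝ) (hv : v ≠ 0) :
    G m 1 (1 - (1 / (2 * ‖v‖)) * v 0) ((1 / (2 * ‖v‖)) • v) ∈ Om h := by
  have h1 := norm_half v hv
  have h2 : |((1 / (2 * ‖v‖)) • v) 0| ≤ 1 / 2 := by
    rw [← Real.norm_eq_abs, ← h1]
    exact norm_le_pi_norm _ 0
  have h3 : ((1 / (2 * ‖v‖)) • v) 0 = (1 / (2 * ‖v‖)) * v 0 := rfl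
  rw [h3] at h2
  rw [mem_Om_G]
  refine ⟨?_, ?_, ?_⟩
  · intro h0
    rw [h0] at h1
    simp at h1
  · rintro ⟨h4, _⟩
    exact one_ne_zero h4
  · rintro ⟨_, h4, _⟩
    have := le_abs_self (1 / (2 * ‖v‖) * v 0)
    linarith

theorem mem_c {m n : ℕ} (h : n + 4 ≤ m) (v : Fin (n + 2) → ℝ) (hv : v ≠ 0) :
    G m 1 (1 - (2 / ‖v‖) * v 0) ((2 / ‖v‖) • v) ∈ Om h := by
  have h1 := norm_two v hv
  have h3 : ((2 / ‖v‖) • v) 0 = (2 / ‖v‖) * v 0 := rfl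
  rw [mem_Om_G]
  refine ⟨?_, ?_, ?_⟩
  · intro h0
    rw [h0] at h1
    simp at h1
  · rintro ⟨h4, _⟩
    exact one_ne_zero h4
  · rintro ⟨_, h4, h5, h6⟩
    rw [norm_eq_abs _ h6, abs_of_nonneg h5, h3] at h1
    linarith

end Pool.Agent.R859.KC
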